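import Pool.Agent.H59.L.S8.TH188.QS.Comp3
import Pool.Agent.H59.L.S8.H176.DT.G3

/-!
# Lifting of stages from the residue field of a regular local ring
-/

set_option autoImplicit false
set_option linter.unusedVariables false
set_option linter.unusedSectionVars false

universe u

namespace Pool.Agent.W5h94.SP

open IsLocalRing Pool.Agent.W418.LU2 Pool.Agent.TH188.QS
open Pool.Agent.H176.DT (St PP SU Mod p_ind p_ext)

variable {K : Type u} [Field K]

section place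

variable {V V₁ : ValuationSubring K} {Q : Subring K} [IsLocalRing Q] [IsFractionRing Q K]

lemma q_pr {z : K} (hz : z ∈ Q) : Pr (residue Q) z (residue Q ⟨z, hz⟩) :=
  Pr.alg (F := K) (φ := residue Q) (⟨z, hz⟩ : Q)

lemma q_mem {z : K} {w : ResidueField Q} (h : Pr (residue Q) z w) : z ∈ Q := by
  obtain ⟨a, b, hb, h1, -⟩ := h
  have hu : IsUnit b := by
    by_contra h2
    exact hb ((residue_eq_zero_iff b).2 ((mem_maximalIdeal b).2 h2))
  obtain ⟨b', hb'⟩ := isUnit_iff_exists_inv.1 hu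
  have h2 : (b : K) * (b' : K) = 1 := congrArg Subtype.val hb'
  have h3 : z = (a : K) * b' := by
    have h4 : z * (b : K) = (a : K) := h1
    rw [← h4, mul_assoc, h2, mul_one]
  rw [h3]
  exact Q.mul_mem a.2 b'.2

lemma q_isUnit (hQV : Q ≤ V₁.toSubring) (hQi : ∀ z ∈ Q, z ≠ 0 → z⁻¹ ∈ V₁.toSubring → z⁻¹ ∈ Q)
    (z : Q) : IsUnit z ↔ (z : K) ≠ 0 ∧ (z : K)⁻¹ ∈ V₁.toSubring := by
  constructor
  · intro hz
    obtain ⟨y, hy⟩ := isUnit_iff_exists_inv.1 hz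
    have h1 : (z : K) * y = 1 := congrArg Subtype.val hy
    refine ⟨left_ne_zero_of_mul_eq_one h1, ?_⟩
    rw [← eq_inv_of_mul_eq_one_right h1]
    exact hQV y.2
  · rintro ⟨h0, h1⟩
    refine isUnit_iff_exists_inv.2 ⟨⟨_, hQi _ z.2 h0 h1⟩, Subtype.ext ?_⟩
    exact mul_inv_cancel₀ h0

lemma q_zero_iff (hQV : Q ≤ V₁.toSubring)
    (hQi : ∀ z ∈ Q, z ≠ 0 → z⁻¹ ∈ V₁.toSubring → z⁻¹ ∈ Q) {z : K} {w : ResidueField Q}
    (h : Pr (residue Q) z w) : w = 0 ↔ V₁.valuation z < 1 := by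
  have hz := q_mem h
  have h1 : w = residue Q ⟨z, hz⟩ := h.unique (q_pr hz)
  rw [h1, residue_eq_zero_iff, mem_maximalIdeal, mem_nonunits_iff, q_isUnit hQV hQi, ← nu_iff]
  rfl

end place

/-- The lifting of stages. -/
theorem lift_SU {V V₁ : ValuationSubring K} (hVV : V ≤ V₁)
    (hmV : ∀ z, V₁.valuation z < 1 → z ∈ V) {A : Subring K} (hA : A ≤ V.toSubring)
    [IsNoetherianRing A] (Q : Subring K) [IsRegularLocalRing Q] [IsFractionRing Q K]
    (hQ : lo V₁.toSubring A = Q)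
    (U : ValuationSubring (ResidueField Q)) (hU : ∀ z : Q, residue Q z ∈ U ↔ (z : K) ∈ V)
    (hSU : SU U (im (residue Q) A)) {π : K} (hπA : π ∈ A) (hπ0 : π ≠ 0) (hπ1 : π⁻¹ ∈ V₁) :
    ∃ (T : Set K) (s : ℕ) (x : Fin s → K) (xb : Fin s → ResidueField Q), St V A T x ∧
      (∀ i, (x i)⁻¹ ∉ V) ∧ (∀ δ : Fin s → ℤ, V.valuation (mo x δ) = 1 → δ = 0) ∧
      PMon (PP V A T) x π ∧ ∀ i, xb i ≠ 0 ∧ Pr (residue Q) (x i) (xb i) := by
  classical
  have hA₁ : A ≤ V₁.toSubring := fun a ha => hVV (hA ha)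
  have hQV₁ : Q ≤ V₁.toSubring := by rw [← hQ]; exact lo_le hA₁
  have hAQ : A ≤ Q := by rw [← hQ]; exact le_lo _ _
  have hQi : ∀ z ∈ Q, z ≠ 0 → z⁻¹ ∈ V₁.toSubring → z⁻¹ ∈ Q := by
    intro z hz h0 h1
    rw [← hQ] at hz ⊢
    exact inv_mem_lo hA₁ hz h0 h1
  -- the place
  have hprV : ∀ {z : K} {w : ResidueField Q}, Pr (residue Q) z w → (z ∈ V ↔ w ∈ U) := by
    intro z w h
    rw [h.unique (q_pr (q_mem h)), hU]
  have hpr0 : ∀ {z : K} {w : ResidueField Q}, Pr (residue Q) z w →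
      (w = 0 ↔ V₁.valuation z < 1) := fun h => q_zero_iff hQV₁ hQi h
  -- the parameters of `Q`
  have hreg0 : RegP V₁.toSubring Q (Fin.elim0 : Fin 0 → K) :=
    { PA := hQV₁
      ne := fun i => i.elim0
      mem := fun i => i.elim0
      reg := inferInstance
      inv := hQi
      ind := fun c _ _ i => i.elim0 }
  obtain ⟨ι, _, a, hrega, han, hagen, -, hadim⟩ := norm_params hreg0
  have hav : ∀ i, V₁.valuation (a i) < 1 := fun i => nu_iff.1 fun h => han i h.2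
  obtain ⟨β, hβ, hβ0, hβV, haβ⟩ := comden (z := a) hA₁ (fun i => by rw [hQ]; exact hrega.mem i)
  obtain ⟨n, z, hz, hzv, hzgen⟩ := exists_nu_gen (V := V₁) hA₁
  have hzP : ∀ k, ∃ c : ι → K, (∀ i, c i ∈ Q) ∧ z k = ∑ i, c i * a i := fun k =>
    hagen (z k) (hAQ (hz k)) (nu_iff.2 (hzv k))
  choose c hcP hzc using hzP
  obtain ⟨γ, hγ, hγ0, hγV, hcγ⟩ := comden (ι := Fin n × ι) (z := fun q => c q.1 q.2) hA₁
    (fun q => by rw [hQ]; exact hcP q.1 q.2)
  have hγv : V₁.valuation γ = 1 := by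
    apply le_antisymm ((V₁.valuation_le_one_iff _).2 (hA₁ hγ))
    have h1 : γ⁻¹ ∈ V₁ := hγV
    rw [← V₁.valuation_le_one_iff, map_inv₀] at h1
    exact (inv_le_one₀ (zero_lt_iff.2 ((map_ne_zero _).2 hγ0))).1 h1
  let x₀ : ι → K := fun i => a i * γ⁻¹
  have hx₀v : ∀ i, V₁.valuation (x₀ i) < 1 := by
    intro i
    change V₁.valuation (a i * γ⁻¹) < 1
    rw [map_mul, map_inv₀, hγv, inv_one, mul_one]
    exact hav i
  have hax₀ : ∀ i, a i = x₀ i * γ := fun i => (inv_mul_cancel_right₀ hγ0 _).symm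
  have hFe₃ : Fe V A (Subring.closure ((A : Set K) ∪ Set.range x₀)) (β * γ) := by
    refine ⟨A.mul_mem hβ hγ, mul_ne_zero hβ0 hγ0, Set.range x₀, Set.finite_range _, ?_, rfl⟩
    rintro _ ⟨i, rfl⟩
    refine ⟨hmV _ (hx₀v i), ?_⟩
    have e : x₀ i * (β * γ) = a i * β := by
      rw [hax₀ i]
      ring
    rw [e]
    exact haβ i
  set B := Subring.closure ((A : Set K) ∪ Set.range x₀) with hB
  have hAB : A ≤ B := fun a ha => Subring.subset_closure (Or.inl ha)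
  have hx₀B : ∀ i, x₀ i ∈ B := fun i => Subring.subset_closure (Or.inr ⟨i, rfl⟩)
  have hcen := adjoin_centre (V₁ := V₁) (B := A) (x := x₀) hA₁ hx₀v (by
    intro w hw hwv
    obtain ⟨e, he, rfl⟩ := hzgen w hw hwv
    refine ⟨fun i => ∑ k, e k * (c k i * γ), fun i => ?_, ?_⟩
    · exact Subring.sum_mem _ fun k _ => hAB (A.mul_mem (he k) (hcγ (k, i)))
    · have h1 : ∀ k, e k * z k = ∑ i, e k * (c k i * γ) * x₀ i := by
        intro k
        rw [hzc k, Finset.mul_sum]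
        refine Finset.sum_congr rfl fun i _ => ?_
        rw [hax₀ i]
        ring
      simp_rw [h1, Finset.sum_mul]
      exact Finset.sum_comm)
  have hBV : B ≤ V.toSubring := hFe₃.leV hA
  have hBV₁ : B ≤ V₁.toSubring := fun a ha => hVV (hBV ha)
  have hBQ : B ≤ Q := by
    rw [hB, Subring.closure_le]
    rintro w (hw | ⟨i, rfl⟩)
    · exact hAQ hw
    · exact Q.mul_mem (hrega.mem i) (hQi _ (hAQ hγ) hγ0 hγV)
  let rs : K → ResidueField Q := fun z => if hz : z ∈ Q then residue Q ⟨z, hz⟩ else 0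
  have hrs : ∀ z ∈ Q, Pr (residue Q) z (rs z) := by
    intro z hz
    simp only [rs, dif_pos hz]
    exact q_pr hz
  have hx₀r : ∀ i, Pr (residue Q) (x₀ i) 0 := by
    intro i
    have h2 := hrs _ (hBQ (hx₀B i))
    rwa [(hpr0 h2).2 (hx₀v i)] at h2
  have himB : im (residue Q) B = im (residue Q) A := by
    have h1 : im (residue Q) B = Subring.closure ((im (residue Q) A :
        Set (ResidueField Q)) ∪ Set.range (fun _ : ι => (0 : ResidueField Q))) := by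
      refine im_closure ?_ ?_
      · rintro u (hu | ⟨i, rfl⟩)
        · exact ⟨rs u, Or.inl ⟨u, hu, hrs u (hAQ hu)⟩, hrs u (hAQ hu)⟩
        · exact ⟨0, Or.inr ⟨i, rfl⟩, hx₀r i⟩
      · rintro w (⟨u, hu, h⟩ | ⟨i, rfl⟩)
        · exact ⟨u, Or.inl hu, h⟩
        · exact ⟨x₀ i, Or.inr ⟨i, rfl⟩, hx₀r i⟩
    rw [h1]
    apply le_antisymm
    · rw [Subring.closure_le]
      rintro w (hw | ⟨i, rfl⟩)
      · exact hw
      · exact Subring.zero_mem _
    · exact fun w hw => Subring.subset_closure (Or.inl hw)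
  -- the stage of the residue field
  let C : Set K := {β, γ, π}
  have hCf : C.Finite := by
    simp only [C]
    exact Set.toFinite _
  have hC : ∀ s ∈ C, s ∈ A ∧ s ≠ 0 ∧ s⁻¹ ∈ V₁ := by
    rintro s (rfl | rfl | rfl)
    · exact ⟨hβ, hβ0, hβV⟩
    · exact ⟨hγ, hγ0, hγV⟩
    · exact ⟨hπA, hπ0, hπ1⟩
  have hunres : ∀ {z : K} {w : ResidueField Q}, Pr (residue Q) z w → z ≠ 0 → z⁻¹ ∈ V₁ →
      w ≠ 0 := by
    intro z w h h0 hi hw
    exact nu_iff.2 ((hpr0 h).1 hw) ⟨h0, hi⟩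
  have hrsC : ∀ s ∈ C, rs s ≠ 0 := fun s hs =>
    hunres (hrs s (hAQ (hC s hs).1)) (hC s hs).2.1 (hC s hs).2.2
  obtain ⟨Tb, s, xb, hStb, hxbU, hindb, hmonb⟩ := p_ind U (im (residue Q) A) hSU (rs '' C)
    (hCf.image _) (by
      rintro _ ⟨s, hs, rfl⟩
      exact hrsC s hs)
  obtain ⟨m, wb, hF⟩ := p_ext hStb.reg (fun i => hxbU i)
  obtain ⟨gb, hgbA, hgbM, hgbT, hgbx⟩ := hStb.den
  have hregb := hStb.reg
  set Pb := PP U (im (residue Q) A) Tb with hPb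
  have hxb0 : ∀ i, xb i ≠ 0 := hregb.ne
  have hgb0 : gb ≠ 0 := by
    obtain ⟨u, hu, -, -, δ, h⟩ := hgbM
    rw [h]
    exact mul_ne_zero hu (mo_ne_zero hxb0 _)
  obtain ⟨g, hgA, hg⟩ := hgbA
  have hg0 : g ≠ 0 := hg.ne_zero hgb0
  have hgQ : g⁻¹ ∈ Q := q_mem (hg.inv hgb0)
  have hgV₁ : g⁻¹ ∈ V₁ := hQV₁ hgQ
  let Tb' : Set (ResidueField Q) := Tb ∪ Set.range xb
  have hTb'f : Tb'.Finite := hStb.fin.union (Set.finite_range _)
  have hTb'g : ∀ tb ∈ Tb', gb * tb ∈ im (residue Q) A := by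
    rintro tb (h | ⟨i, rfl⟩)
    · exact hgbT tb h
    · exact hgbx i
  have hTbP : ∀ tb ∈ Tb', tb ∈ Pb := by
    rintro tb (h | ⟨i, rfl⟩)
    · exact le_lo _ _ (Subring.subset_closure (Or.inr h))
    · exact hregb.mem i
  have hat' : ∀ tb : ResidueField Q, ∃ a : K, tb ∈ Tb' → a ∈ A ∧ Pr (residue Q) a (gb * tb) := by
    intro tb
    by_cases htb : tb ∈ Tb'
    · obtain ⟨a, ha, h⟩ := hTb'g tb htb
      exact ⟨a, fun _ => ⟨ha, h⟩⟩
    · exact ⟨0, fun h => absurd h htb⟩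
  choose at₄ hat using hat'
  let T₄ : Set K := (fun tb => at₄ tb * g⁻¹) '' Tb'
  have hT₄r : ∀ tb ∈ Tb', Pr (residue Q) (at₄ tb * g⁻¹) tb := by
    intro tb htb
    have h1 := (hat tb htb).2.mul (hg.inv hgb0)
    rwa [mul_comm gb tb, mul_inv_cancel_right₀ hgb0] at h1
  have hT₄B : ∀ t ∈ T₄, t * g ∈ B := by
    rintro _ ⟨tb, htb, rfl⟩
    change at₄ tb * g⁻¹ * g ∈ B
    rw [inv_mul_cancel_right₀ hg0]
    exact hAB (hat tb htb).1
  obtain ⟨k₄, hFe₄⟩ := hFe₃.adjoin (T' := T₄) (hTb'f.image _) (hAB hgA) hg0 (by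
    rintro t ht
    refine ⟨?_, hT₄B t ht⟩
    obtain ⟨tb, htb, rfl⟩ := ht
    exact (hprV (hT₄r tb htb)).2 (hregb.PA (hTbP tb htb)))
  set A₄ := Subring.closure ((B : Set K) ∪ T₄) with hA₄
  have hA₄V : A₄ ≤ V.toSubring := hFe₄.leV hA
  have hA₄V₁ : A₄ ≤ V₁.toSubring := fun a ha => hVV (hA₄V ha)
  have hBA₄ : B ≤ A₄ := fun a ha => Subring.subset_closure (Or.inl ha)
  have hA₄Q : A₄ ≤ Q := by
    rw [hA₄, Subring.closure_le]
    rintro w (hw | ⟨tb, htb, rfl⟩)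
    · exact hBQ hw
    · exact Q.mul_mem (hAQ (hat tb htb).1) hgQ
  have hnoe₄ := hFe₄.noeth
  have him₄ : im (residue Q) A₄ = Subring.closure ((im (residue Q) A : Set (ResidueField Q)) ∪
      Tb') := by
    rw [← himB]
    refine im_closure ?_ ?_
    · rintro u (hu | ⟨tb, htb, rfl⟩)
      · exact ⟨rs u, Or.inl ⟨u, hu, hrs u (hBQ hu)⟩, hrs u (hBQ hu)⟩
      · exact ⟨tb, Or.inr htb, hT₄r tb htb⟩
    · rintro w (⟨u, hu, h⟩ | hw)
      · exact ⟨u, Or.inl hu, h⟩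
      · exact ⟨_, Or.inr ⟨w, hw, rfl⟩, hT₄r w hw⟩
  have himW : im (residue Q) A₄ ≤ U.toSubring := by
    rintro w ⟨z, hz, h⟩
    exact (hprV h).1 (hA₄V hz)
  have hPb₄ : Pb = lo U.toSubring (im (residue Q) A₄) := by
    rw [him₄]
    symm
    refine lo_eq ((le_lo _ _).trans hregb.PA) ?_ ?_
    · exact Subring.closure_mono (Set.union_subset_union_right _ Set.subset_union_left)
    · rw [Subring.closure_le]
      rintro w (hw | hw)
      · exact le_lo _ _ (Subring.subset_closure (Or.inl hw))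
      · exact hTbP w hw
  have himlo : ∀ R : Subring K, R ≤ V.toSubring → R ≤ Q →
      im (residue Q) (lo V.toSubring R) = lo U.toSubring (im (residue Q) R) := by
    intro R hR hRQ
    have h1 : R ≤ AA K (residue Q) U := by
      intro z hz
      exact ⟨rs z, (hprV (hrs z (hRQ hz))).1 (hR hz), hrs z (hRQ hz)⟩
    have h2 : lo V.toSubring R = lo (AA K (residue Q) U) R := by
      ext z
      constructor
      · rintro ⟨a, ha, b, hb, hb0, hbV, rfl⟩
        refine ⟨a, ha, b, hb, hb0, ?_, rfl⟩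
        have h3 : b⁻¹ ∈ Q := hQi b (hRQ hb) hb0 (hVV hbV)
        exact ⟨rs b⁻¹, (hprV (hrs _ h3)).1 hbV, hrs _ h3⟩
      · rintro ⟨a, ha, b, hb, hb0, ⟨w, hw, hbw⟩, rfl⟩
        exact ⟨a, ha, b, hb, hb0, (hprV hbw).2 hw, rfl⟩
    rw [h2]
    exact im_lo h1
  have hPbim : Pb = im (residue Q) (lo V.toSubring A₄) := by rw [himlo A₄ hA₄V hA₄Q, hPb₄]
  -- the parameters
  let x : Fin s → K := fun j => at₄ (xb j) * g⁻¹
  have hxT₄ : ∀ j, x j ∈ T₄ := fun j => ⟨xb j, Or.inr ⟨j, rfl⟩, rfl⟩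
  have hxA : ∀ j, x j ∈ A₄ := fun j => Subring.subset_closure (Or.inr (hxT₄ j))
  have hxr : ∀ j, Pr (residue Q) (x j) (xb j) := fun j => hT₄r _ (Or.inr ⟨j, rfl⟩)
  have hx0 : ∀ j, x j ≠ 0 := fun j => (hxr j).ne_zero (hxb0 j)
  obtain ⟨η, hη, hη0, hηW, hyη⟩ := comden (z := wb) himW (fun i => by
    rw [← hPb₄]; exact hF.mem (Sum.inr i))
  choose y hyA hyr using hyη
  have hηPb : η ∈ Pb := by rw [hPb₄]; exact le_lo _ _ hη
  have hηPb' : η⁻¹ ∈ Pb := hregb.inv η hηPb hη0 hηW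
  -- the centre on `A₄`
  obtain ⟨k, hk⟩ : ∃ k : ℕ, ∀ z ∈ A₄, V₁.valuation z < 1 → ∃ c : ι → K, (∀ i, c i ∈ A₄) ∧
      z = ∑ i, c i * (x₀ i * (g ^ k)⁻¹) := by
    obtain ⟨n, z, hz, hzv, hzgen⟩ := exists_nu_gen (V := V₁) hA₄V₁
    choose kl hkl using fun l => exists_den (A := B) (T := T₄) (hAB hgA) hT₄B (hz l)
    have hgk : ∀ l, g ^ (Finset.univ.sup kl) * z l ∈ B := fun l =>
      hkl l _ (Finset.le_sup (Finset.mem_univ l))
    have hgv : ∀ l, V₁.valuation (g ^ (Finset.univ.sup kl) * z l) < 1 := by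
      intro l
      rw [map_mul]
      have h1 := (V₁.valuation_le_one_iff _).2 (hBV₁ (B.pow_mem (hAB hgA) (Finset.univ.sup kl)))
      calc V₁.valuation (g ^ (Finset.univ.sup kl)) * V₁.valuation (z l) ≤
            1 * V₁.valuation (z l) := mul_le_mul_left h1 _
        _ = V₁.valuation (z l) := one_mul _
        _ < 1 := hzv l
    choose c hc hzc using fun l => hcen _ (hgk l) (hgv l)
    refine ⟨Finset.univ.sup kl, fun w hw hwv => ?_⟩
    obtain ⟨e, he, rfl⟩ := hzgen w hw hwv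
    refine ⟨fun i => ∑ l, e l * c l i, fun i => Subring.sum_mem _ fun l _ =>
      A₄.mul_mem (he l) (hBA₄ (hc l i)), ?_⟩
    have hgk0 : g ^ (Finset.univ.sup kl) ≠ 0 := pow_ne_zero _ hg0
    have h1 : ∀ l, e l * z l = ∑ i, e l * c l i * (x₀ i * (g ^ (Finset.univ.sup kl))⁻¹) := by
      intro l
      have h2 : z l = (g ^ (Finset.univ.sup kl))⁻¹ * ∑ i, c l i * x₀ i := by
        rw [← hzc l, inv_mul_cancel_left₀ hgk0]
      rw [h2, Finset.mul_sum, Finset.mul_sum]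
      exact Finset.sum_congr rfl fun i _ => by ring
    simp_rw [h1, Finset.sum_mul]
    exact Finset.sum_comm
  -- exponents
  let C' : Set K := insert g C
  have hC'f : C'.Finite := hCf.insert g
  have hC'B : ∀ s ∈ C', s ∈ B := by
    rintro s (rfl | hs)
    · exact hAB hgA
    · exact hAB (hC s hs).1
  have hC'0 : ∀ s ∈ C', s ≠ 0 := by
    rintro s (rfl | hs)
    · exact hg0
    · exact (hC s hs).2.1
  have hC'm : ∀ s ∈ C', PMon Pb xb (rs s) := by
    intro s hs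
    rcases hs with rfl | hs
    · have h1 : rs s = gb := (hrs s (hAQ hgA)).unique hg
      rw [h1]
      exact hgbM
    · exact (hmonb _ ⟨s, hs, rfl⟩).1
  have hC'u : ∀ s' : K, ∃ (ub : ResidueField Q) (δ : Fin s → ℤ), s' ∈ C' → ub ≠ 0 ∧ ub ∈ Pb ∧
      ub⁻¹ ∈ Pb ∧ rs s' = ub * mo xb δ := by
    intro s
    by_cases hs : s ∈ C'
    · obtain ⟨u, h1, h2, h3, δ, h4⟩ := hC'm s hs
      exact ⟨u, δ, fun _ => ⟨h1, h2, h3, h4⟩⟩
    · exact ⟨0, 0, fun h => absurd h hs⟩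
  choose ub δ hub using hC'u
  let N : ℕ := hC'f.toFinset.sup fun s' => Finset.univ.sup fun j => (δ s' j).toNat
  have hN : ∀ s' ∈ C', ∀ j, (δ s' j).toNat ≤ N := by
    intro s' hs j
    refine le_trans ?_ (Finset.le_sup (f := fun s' => Finset.univ.sup fun j => (δ s' j).toNat)
      (hC'f.mem_toFinset.2 hs))
    exact Finset.le_sup (f := fun j => (δ s' j).toNat) (Finset.mem_univ j)
  let M : K := ∏ j, x j ^ N
  have hM4 : M ∈ A₄ := A₄.prod_mem fun j _ => A₄.pow_mem (hxA j) N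
  have hM0 : M ≠ 0 := Finset.prod_ne_zero_iff.2 fun j _ => pow_ne_zero _ (hx0 j)
  have hMr : Pr (residue Q) M (∏ j, xb j ^ N) := Pr.prod _ fun j _ => (hxr j).pow N
  have hMr0 : ∏ j, xb j ^ N ≠ 0 := Finset.prod_ne_zero_iff.2 fun j _ => pow_ne_zero _ (hxb0 j)
  let R : K := g ^ k * M
  have hR4 : R ∈ A₄ := A₄.mul_mem (A₄.pow_mem (hBA₄ (hAB hgA)) k) hM4
  have hR0 : R ≠ 0 := mul_ne_zero (pow_ne_zero _ hg0) hM0
  have hRQ : R⁻¹ ∈ Q := by
    have h1 : Pr (residue Q) R (gb ^ k * ∏ j, xb j ^ N) := (hg.pow k).mul hMr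
    exact q_mem (h1.inv (mul_ne_zero (pow_ne_zero _ hgb0) hMr0))
  have hRi : R⁻¹ ∈ V₁ := hQV₁ hRQ
  let x' : ι → K := fun i => x₀ i * R⁻¹
  have hx'v : ∀ i, V₁.valuation (x' i) < 1 := by
    intro i
    change V₁.valuation (x₀ i * R⁻¹) < 1
    rw [map_mul]
    have h1 := (V₁.valuation_le_one_iff _).2 hRi
    calc V₁.valuation (x₀ i) * V₁.valuation R⁻¹ ≤ V₁.valuation (x₀ i) * 1 :=
          mul_le_mul_right h1 _
      _ = V₁.valuation (x₀ i) := mul_one _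
      _ < 1 := hx₀v i
  have hxx' : ∀ i, x₀ i = x' i * R := fun i => (inv_mul_cancel_right₀ hR0 _).symm
  have hx'Q : ∀ i, x' i ∈ Q := fun i => Q.mul_mem (hBQ (hx₀B i)) hRQ
  have hx'r : ∀ i, Pr (residue Q) (x' i) 0 := by
    intro i
    have h2 := hrs _ (hx'Q i)
    rwa [(hpr0 h2).2 (hx'v i)] at h2
  obtain ⟨k₆, hFe₆⟩ := hFe₄.adjoin (T' := Set.range x') (Set.finite_range _) hR4 hR0 (by
    rintro _ ⟨i, rfl⟩
    refine ⟨hmV _ (hx'v i), ?_⟩
    rw [← hxx' i]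
    exact hBA₄ (hx₀B i))
  set A₆ := Subring.closure ((A₄ : Set K) ∪ Set.range x') with hA₆
  have hA₄₆ : A₄ ≤ A₆ := fun a ha => Subring.subset_closure (Or.inl ha)
  have hx'A : ∀ i, x' i ∈ A₆ := fun i => Subring.subset_closure (Or.inr ⟨i, rfl⟩)
  have hA₆V : A₆ ≤ V.toSubring := hFe₆.leV hA
  have hA₆V₁ : A₆ ≤ V₁.toSubring := fun a ha => hVV (hA₆V ha)
  have hA₆Q : A₆ ≤ Q := by
    rw [hA₆, Subring.closure_le]
    rintro w (hw | ⟨i, rfl⟩)
    · exact hA₄Q hw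
    · exact hx'Q i
  have hnoe₆ := hFe₆.noeth
  have hk' : ∀ z ∈ A₄, V₁.valuation z < 1 → ∃ c : ι → K, (∀ i, c i ∈ A₄) ∧
      z = M * ∑ i, c i * x' i := by
    intro z hz hzv
    obtain ⟨c, hc, hzc⟩ := hk z hz hzv
    refine ⟨c, hc, ?_⟩
    rw [hzc, Finset.mul_sum]
    refine Finset.sum_congr rfl fun i _ => ?_
    change c i * (x₀ i * (g ^ k)⁻¹) = M * (c i * (x₀ i * (g ^ k * M)⁻¹))
    rw [mul_inv]
    field_simp
  have hcen₆ := adjoin_centre (V₁ := V₁) (B := A₄) (x := x') hA₄V₁ hx'v (by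
    intro z hz hzv
    obtain ⟨c, hc, hzc⟩ := hk' z hz hzv
    refine ⟨fun i => M * c i, fun i => hA₄₆ (A₄.mul_mem hM4 (hc i)), ?_⟩
    rw [hzc, Finset.mul_sum]
    exact Finset.sum_congr rfl fun i _ => by ring)
  set P := lo V.toSubring A₆ with hP
  have hPV : P ≤ V.toSubring := lo_le hA₆V
  have hPV₁ : P ≤ V₁.toSubring := fun a ha => hVV (hPV ha)
  have hIC : IC V.toSubring P := ic_lo hA₆V
  have hA₆P : A₆ ≤ P := le_lo _ _
  have hPQ : P ≤ Q := by
    rintro _ ⟨a, ha, b, hb, hb0, hbV, rfl⟩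
    exact Q.mul_mem (hA₆Q ha) (hQi b (hA₆Q hb) hb0 (hVV hbV))
  have hloP : lo V.toSubring A₄ ≤ P := lo_mono hA₄₆
  have hnoeP : IsNoetherianRing P := noeth_lo hA₆V
  have hlocP : IsLocalRing P := isLocalRing_lo (loc_V V) hA₆V
  have hx'P : ∀ i, x' i ∈ P := fun i => hA₆P (hx'A i)
  have hxP : ∀ j, x j ∈ P := fun j => hA₆P (hA₄₆ (hxA j))
  have hyP : ∀ j, y j ∈ P := fun j => hA₆P (hA₄₆ (hyA j))
  have him₆ : im (residue Q) A₆ = im (residue Q) A₄ := by
    have h1 : im (residue Q) A₆ = Subring.closure ((im (residue Q) A₄ :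
        Set (ResidueField Q)) ∪ Set.range (fun _ : ι => (0 : ResidueField Q))) := by
      refine im_closure ?_ ?_
      · rintro u (hu | ⟨i, rfl⟩)
        · exact ⟨rs u, Or.inl ⟨u, hu, hrs u (hA₄Q hu)⟩, hrs u (hA₄Q hu)⟩
        · exact ⟨0, Or.inr ⟨i, rfl⟩, hx'r i⟩
      · rintro w (⟨u, hu, h⟩ | ⟨i, rfl⟩)
        · exact ⟨u, Or.inl hu, h⟩
        · exact ⟨x' i, Or.inr ⟨i, rfl⟩, hx'r i⟩
    rw [h1]
    apply le_antisymm
    · rw [Subring.closure_le]
      rintro w (hw | ⟨i, rfl⟩)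
      · exact hw
      · exact Subring.zero_mem _
    · exact fun w hw => Subring.subset_closure (Or.inl hw)
  have hPbP : Pb = im (residue Q) P := by rw [hP, himlo A₆ hA₆V hA₆Q, him₆, hPb₄]
  -- elements of the centre
  have hstar : ∀ d ∈ lo V.toSubring A₄, V₁.valuation d < 1 → ∃ s ∈ P, V₁.valuation s < 1 ∧
      d = M * s := by
    rintro d ⟨a, ha, b, hb, hb0, hbV, rfl⟩ hv
    have hav : V₁.valuation a < 1 := by
      have h1 : a = a * b⁻¹ * b := by rw [inv_mul_cancel_right₀ hb0]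
      rw [h1, map_mul]
      have h2 := (V₁.valuation_le_one_iff _).2 (hA₄V₁ hb)
      calc V₁.valuation (a * b⁻¹) * V₁.valuation b ≤ V₁.valuation (a * b⁻¹) * 1 :=
            mul_le_mul_right h2 _
        _ = V₁.valuation (a * b⁻¹) := mul_one _
        _ < 1 := hv
    obtain ⟨c, hc, hac⟩ := hk' a ha hav
    refine ⟨(∑ i, c i * x' i) * b⁻¹, ?_, ?_, ?_⟩
    · refine P.mul_mem (P.sum_mem fun i _ => P.mul_mem (hA₆P (hA₄₆ (hc i))) (hx'P i)) ?_
      exact hIC b (hA₆P (hA₄₆ hb)) hb0 hbV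
    · rw [map_mul]
      have h2 := (V₁.valuation_le_one_iff _).2 (hVV hbV)
      have h3 : V₁.valuation (∑ i, c i * x' i) < 1 := by
        refine V₁.valuation.map_sum_lt one_ne_zero fun i _ => ?_
        rw [map_mul]
        have h1 := (V₁.valuation_le_one_iff _).2 (hA₄V₁ (hc i))
        calc V₁.valuation (c i) * V₁.valuation (x' i) ≤ 1 * V₁.valuation (x' i) :=
              mul_le_mul_left h1 _
          _ = V₁.valuation (x' i) := one_mul _
          _ < 1 := hx'v i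
      calc V₁.valuation (∑ i, c i * x' i) * V₁.valuation b⁻¹ ≤
            V₁.valuation (∑ i, c i * x' i) * 1 := mul_le_mul_right h2 _
        _ = V₁.valuation (∑ i, c i * x' i) := mul_one _
        _ < 1 := h3
    · rw [hac, mul_assoc]
  have hstar₆ : ∀ d ∈ P, V₁.valuation d < 1 → ∃ c : ι → K, (∀ i, c i ∈ P) ∧
      d = ∑ i, c i * x' i := by
    rintro d ⟨a, ha, b, hb, hb0, hbV, rfl⟩ hv
    have hav : V₁.valuation a < 1 := by
      have h1 : a = a * b⁻¹ * b := by rw [inv_mul_cancel_right₀ hb0]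
      rw [h1, map_mul]
      have h2 := (V₁.valuation_le_one_iff _).2 (hA₆V₁ hb)
      calc V₁.valuation (a * b⁻¹) * V₁.valuation b ≤ V₁.valuation (a * b⁻¹) * 1 :=
            mul_le_mul_right h2 _
        _ = V₁.valuation (a * b⁻¹) := mul_one _
        _ < 1 := hv
    obtain ⟨c, hc, hac⟩ := hcen₆ a ha hav
    refine ⟨fun i => c i * b⁻¹, fun i => P.mul_mem (hA₆P (hc i)) (hIC b (hA₆P hb) hb0 hbV), ?_⟩
    rw [hac, Finset.sum_mul]
    exact Finset.sum_congr rfl fun i _ => by ring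
  -- normal forms
  have hnf : ∀ s ∈ C', ∃ u ∈ P, u ≠ 0 ∧ u⁻¹ ∈ P ∧
      s * ∏ j, x j ^ (-δ s j).toNat = u * ∏ j, x j ^ (δ s j).toNat := by
    intro s hs
    obtain ⟨h1, h2, h3, h4⟩ := hub s hs
    have h2' := h2
    rw [hPbim] at h2'
    obtain ⟨u, hu, hur⟩ := h2'
    have hs4 : s ∈ A₄ := hBA₄ (hC'B s hs)
    have hd4 : s * ∏ j, x j ^ (-δ s j).toNat - u * ∏ j, x j ^ (δ s j).toNat ∈
        lo V.toSubring A₄ := by
      refine Subring.sub_mem _ (Subring.mul_mem _ (le_lo _ _ hs4) ?_) (Subring.mul_mem _ hu ?_)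
      · exact Subring.prod_mem _ fun j _ => Subring.pow_mem _ (le_lo _ _ (hxA j)) _
      · exact Subring.prod_mem _ fun j _ => Subring.pow_mem _ (le_lo _ _ (hxA j)) _
    have hdr : Pr (residue Q) (s * ∏ j, x j ^ (-δ s j).toNat - u * ∏ j, x j ^ (δ s j).toNat)
        0 := by
      have e1 : Pr (residue Q) (s * ∏ j, x j ^ (-δ s j).toNat)
          (rs s * ∏ j, xb j ^ (-δ s j).toNat) :=
        (hrs s (hA₄Q hs4)).mul (Pr.prod _ fun j _ => (hxr j).pow _)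
      have e2 : Pr (residue Q) (u * ∏ j, x j ^ (δ s j).toNat)
          (ub s * ∏ j, xb j ^ (δ s j).toNat) :=
        hur.mul (Pr.prod _ fun j _ => (hxr j).pow _)
      have e3 := e1.add e2.neg
      have e4 : rs s * ∏ j, xb j ^ (-δ s j).toNat + -(ub s * ∏ j, xb j ^ (δ s j).toNat) = 0 := by
        rw [h4, mul_assoc, mo_split hxb0, add_neg_cancel]
      rw [e4, ← sub_eq_add_neg] at e3
      exact e3
    obtain ⟨t, ht, htv, hdt⟩ := hstar _ hd4 ((hpr0 hdr).1 rfl)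
    -- `M` is divisible by the monomial
    have hMd : M = (∏ j, x j ^ (δ s j).toNat) * ∏ j, x j ^ (N - (δ s j).toNat) := by
      rw [← Finset.prod_mul_distrib]
      refine Finset.prod_congr rfl fun j _ => ?_
      rw [← pow_add]
      congr 1
      have := hN s hs j
      omega
    have hu'P : u + (∏ j, x j ^ (N - (δ s j).toNat)) * t ∈ P :=
      P.add_mem (hloP hu) (P.mul_mem (P.prod_mem fun j _ => P.pow_mem (hxP j) _) ht)
    have hu'r : Pr (residue Q) (u + (∏ j, x j ^ (N - (δ s j).toNat)) * t) (ub s) := by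
      have e2 := hrs t (hPQ ht)
      rw [(hpr0 e2).2 htv] at e2
      have e3 : Pr (residue Q) (∏ j, x j ^ (N - (δ s j).toNat))
          (∏ j, xb j ^ (N - (δ s j).toNat)) := Pr.prod _ fun j _ => (hxr j).pow _
      have e4 := hur.add (e3.mul e2)
      rwa [mul_zero, add_zero] at e4
    have hu'0 := hu'r.ne_zero h1
    refine ⟨_, hu'P, hu'0, ?_, ?_⟩
    · refine hIC _ hu'P hu'0 ?_
      exact (hprV (hu'r.inv h1)).2 (hregb.PA h3)
    · have e1 : s * ∏ j, x j ^ (-δ s j).toNat = u * (∏ j, x j ^ (δ s j).toNat) + M * t := by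
        rw [← hdt]
        ring
      rw [e1, hMd]
      ring
  -- the maximal ideal
  have hregPb := hF.reg
  have hspanb : Ideal.span (Set.range fun i => (⟨Sum.elim xb wb i, hF.mem i⟩ : Pb)) =
      maximalIdeal Pb := hF.span
  have hgenb : ∀ w ∈ Pb, NU U.toSubring w → ∃ c : Fin s ⊕ Fin m → ResidueField Q,
      (∀ i, c i ∈ Pb) ∧ w = ∑ i, c i * Sum.elim xb wb i := by
    intro w hw hn
    have h1 : (⟨w, hw⟩ : Pb) ∈ maximalIdeal Pb := (hregb.mem_max _).2 hn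
    rw [← hspanb, Ideal.mem_span_range_iff_exists_fun] at h1
    obtain ⟨c, hc⟩ := h1
    refine ⟨fun i => c i, fun i => (c i).2, ?_⟩
    have h2 := congrArg Pb.subtype hc
    rw [map_sum] at h2
    exact h2.symm
  let e : Fin s ⊕ Fin m → ResidueField Q := Sum.elim (fun _ => 1) fun _ => η⁻¹
  let zl : Fin s ⊕ Fin m → K := Sum.elim x y
  have hzlP : ∀ i, zl i ∈ P := by
    rintro (i | i)
    · exact hxP i
    · exact hyP i
  have hzlr : ∀ i, Pr (residue Q) (zl i) ((e i)⁻¹ * Sum.elim xb wb i) := by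
    rintro (i | i)
    · change Pr (residue Q) (x i) ((1 : ResidueField Q)⁻¹ * xb i)
      rw [inv_one, one_mul]
      exact hxr i
    · change Pr (residue Q) (y i) ((η⁻¹)⁻¹ * wb i)
      rw [inv_inv, mul_comm]
      exact hyr i
  have heP : ∀ i, e i ∈ Pb := by
    rintro (i | i)
    · exact Pb.one_mem
    · exact hηPb'
  have he0 : ∀ i, e i ≠ 0 := by
    rintro (i | i)
    · exact one_ne_zero
    · exact inv_ne_zero hη0
  have hmax : ∀ z ∈ P, NU V.toSubring z → ∃ (c₁ : ι → K) (c₂ : Fin s ⊕ Fin m → K),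
      (∀ i, c₁ i ∈ P) ∧ (∀ j, c₂ j ∈ P) ∧ z = ∑ i, c₁ i * x' i + ∑ j, c₂ j * zl j := by
    intro z hz hzn
    have hzr := hrs z (hPQ hz)
    have h1 : rs z ∈ Pb := by rw [hPbP]; exact ⟨z, hz, hzr⟩
    have h2 : NU U.toSubring (rs z) := by
      rintro ⟨h3, h4⟩
      exact hzn ⟨hzr.ne_zero h3, (hprV (hzr.inv h3)).2 h4⟩
    obtain ⟨c, hc, hzc⟩ := hgenb (rs z) h1 h2
    have h3 : ∀ j, c j * e j ∈ im (residue Q) P := fun j => by
      rw [← hPbP]; exact Pb.mul_mem (hc j) (heP j)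
    choose c₂ hc₂ hc₂r using h3
    have h4 : Pr (residue Q) (z - ∑ j, c₂ j * zl j) 0 := by
      have e1 := hzr.add (Pr.sum Finset.univ fun j _ => (hc₂r j).mul (hzlr j)).neg
      have e2 : rs z + -∑ j, c j * e j * ((e j)⁻¹ * Sum.elim xb wb j) = 0 := by
        rw [hzc, ← sub_eq_add_neg, sub_eq_zero]
        refine Finset.sum_congr rfl fun j _ => ?_
        rw [← mul_assoc, mul_inv_cancel_right₀ (he0 j)]
      rw [e2, ← sub_eq_add_neg] at e1
      exact e1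
    obtain ⟨c₁, hc₁, h5⟩ := hstar₆ _ (P.sub_mem hz (P.sum_mem fun j _ =>
      P.mul_mem (hc₂ j) (hzlP j))) ((hpr0 h4).1 rfl)
    exact ⟨c₁, c₂, hc₁, hc₂, by rw [← h5]; ring⟩
  let Y : ι ⊕ (Fin s ⊕ Fin m) → K := Sum.elim x' zl
  have hYP : ∀ i, Y i ∈ P := by
    rintro (i | j)
    · exact hx'P i
    · exact hzlP j
  have hunitP : ∀ z : P, IsUnit z ↔ (z : K) ≠ 0 ∧ (z : K)⁻¹ ∈ V.toSubring := fun z =>
    isUnit_lo_iff hA₆V z
  have hmaxP : ∀ z : P, z ∈ maximalIdeal P ↔ NU V.toSubring (z : K) := by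
    intro z
    rw [mem_maximalIdeal, mem_nonunits_iff, hunitP]
    rfl
  have hnu : ∀ {z : K} {w : ResidueField Q}, Pr (residue Q) z w → NU U.toSubring w →
      NU V.toSubring z := by
    rintro z w h1 h2 ⟨h3, h4⟩
    have h5 : w ≠ 0 := hunres h1 h3 (hVV h4)
    exact h2 ⟨h5, (hprV (h1.inv h5)).1 h4⟩
  have hYn : ∀ i, NU V.toSubring (Y i) := by
    rintro (i | i)
    · exact hnu (hx'r i) NU.zero
    · refine hnu (hzlr i) ?_
      have h1 : NU U.toSubring (Sum.elim xb wb i) := by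
        have h2 : (⟨Sum.elim xb wb i, hF.mem i⟩ : Pb) ∈ maximalIdeal Pb := by
          rw [← hspanb]
          exact Ideal.subset_span ⟨i, rfl⟩
        exact (hregb.mem_max _).1 h2
      refine NU.mul ?_ h1
      rcases i with i | i
      · change (1 : ResidueField Q)⁻¹ ∈ U.toSubring
        rw [inv_one]
        exact U.one_mem
      · change (η⁻¹)⁻¹ ∈ U.toSubring
        rw [inv_inv]
        exact hregb.PA hηPb
  have hspan : Ideal.span (Set.range fun i => (⟨Y i, hYP i⟩ : P)) = maximalIdeal P := by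
    apply le_antisymm
    · rw [Ideal.span_le]
      rintro _ ⟨i, rfl⟩
      exact (hmaxP _).2 (hYn i)
    · rintro ⟨z, hz⟩ hzm
      obtain ⟨c₁, c₂, hc₁, hc₂, hzc⟩ := hmax z hz ((hmaxP _).1 hzm)
      have h1 : (⟨z, hz⟩ : P) = ∑ i, (⟨c₁ i, hc₁ i⟩ : P) * ⟨Y (Sum.inl i), hYP _⟩ +
          ∑ j, (⟨c₂ j, hc₂ j⟩ : P) * ⟨Y (Sum.inr j), hYP _⟩ := by
        apply Subtype.ext
        have e1 : ((∑ i, (⟨c₁ i, hc₁ i⟩ : P) * ⟨Y (Sum.inl i), hYP _⟩ : P) : K) =
            ∑ i, c₁ i * x' i := map_sum P.subtype _ _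
        have e2 : ((∑ j, (⟨c₂ j, hc₂ j⟩ : P) * ⟨Y (Sum.inr j), hYP _⟩ : P) : K) =
            ∑ j, c₂ j * zl j := map_sum P.subtype _ _
        rw [Subring.coe_add, e1, e2]
        exact hzc
      rw [h1]
      exact Ideal.add_mem _ (Ideal.sum_mem _ fun i _ => Ideal.mul_mem_left _ _
        (Ideal.subset_span ⟨_, rfl⟩)) (Ideal.sum_mem _ fun j _ => Ideal.mul_mem_left _ _
        (Ideal.subset_span ⟨_, rfl⟩))
  -- the dimension
  have hdimP : ((Fintype.card (ι ⊕ (Fin s ⊕ Fin m)) : ℕ) : WithBot ℕ∞) ≤ ringKrullDim P := by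
    obtain ⟨p, hp, hpm, hph⟩ := lo_loc (loc_V V₁) hPV₁
    have e1 : lo V₁.toSubring P = Q := by
      apply le_antisymm
      · rintro _ ⟨a, ha, b, hb, hb0, hbV, rfl⟩
        exact Q.mul_mem (hPQ ha) (hQi b (hPQ hb) hb0 hbV)
      · rw [← hQ]
        exact lo_mono (((hAB.trans hBA₄).trans hA₄₆).trans hA₆P)
    rw [e1] at hph
    -- the quotient
    have hres : ∀ z : P, rs (z : K) ∈ Pb := fun z => by
      rw [hPbP]; exact ⟨z, z.2, hrs _ (hPQ z.2)⟩
    let θ : P →+* Pb :=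
      { toFun := fun z => ⟨rs z, hres z⟩
        map_one' := Subtype.ext ((hrs _ (hPQ P.one_mem)).unique Pr.one)
        map_mul' := fun a b => Subtype.ext ((hrs _ (hPQ (a * b).2)).unique
          ((hrs _ (hPQ a.2)).mul (hrs _ (hPQ b.2))))
        map_zero' := Subtype.ext ((hrs _ (hPQ P.zero_mem)).unique Pr.zero)
        map_add' := fun a b => Subtype.ext ((hrs _ (hPQ (a + b).2)).unique
          ((hrs _ (hPQ a.2)).add (hrs _ (hPQ b.2)))) }
    have hθs : Function.Surjective θ := by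
      rintro ⟨w, hw⟩
      have hw' := hw
      rw [hPbP] at hw'
      obtain ⟨z, hz, hzw⟩ := hw'
      exact ⟨⟨z, hz⟩, Subtype.ext ((hrs z (hPQ hz)).unique hzw)⟩
    have hker : RingHom.ker θ = p := by
      ext z
      rw [RingHom.mem_ker, hpm, nu_iff, ← hpr0 (hrs (z : K) (hPQ z.2))]
      exact ⟨fun h => congrArg Subtype.val h, fun h => Subtype.ext h⟩
    have e4 : ringKrullDim (P ⧸ p) = ringKrullDim Pb := by
      rw [← hker]
      exact ringKrullDim_eq_of_ringEquiv (RingHom.quotientKerEquivOfSurjective hθs)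
    have e5 := height_add_quot p
    rw [e4] at e5
    rw [Fintype.card_sum]
    refine le_trans ?_ e5
    have e6 : (((Fintype.card ι + Fintype.card (Fin s ⊕ Fin m) : ℕ) : ℕ) : WithBot ℕ∞) =
        ((Fintype.card ι : ℕ) : WithBot ℕ∞) +
          ((Fintype.card (Fin s ⊕ Fin m) : ℕ) : WithBot ℕ∞) := by
      push_cast
      rfl
    rw [e6]
    refine add_le_add ?_ hF.dim.ge
    rw [← hph]
    exact hadim
  have hregP : IsRegularLocalRing P := by
    apply IsRegularLocalRing.of_spanFinrank_maximalIdeal_le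
    refine le_trans ?_ hdimP
    rw [← hspan]
    have e1 := Submodule.spanFinrank_span_le_ncard_of_finite (R := P)
      (Set.finite_range fun i => (⟨Y i, hYP i⟩ : P))
    have e2 : (Set.range fun i => (⟨Y i, hYP i⟩ : P)).ncard ≤
        Fintype.card (ι ⊕ (Fin s ⊕ Fin m)) := by
      rw [← Set.image_univ]
      refine (Set.ncard_image_le (Set.finite_univ)).trans ?_
      rw [Set.ncard_univ, Nat.card_eq_fintype_card]
    exact_mod_cast e1.trans e2
  have hInd : Ind (fun i => (⟨Y i, hYP i⟩ : P)) := ind_of_span hspan hdimP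
  have hIndx : Ind (fun i : Fin s => (⟨x i, hxP i⟩ : P)) :=
    hInd.comp (fun i : Fin s => (Sum.inr (Sum.inl i) : ι ⊕ (Fin s ⊕ Fin m)))
      (fun i j h => Sum.inl_injective (Sum.inr_injective h))
  have hRP : RegP V.toSubring P x :=
    { PA := hPV
      ne := hx0
      mem := hxP
      reg := hregP
      inv := hIC
      ind := IndN.of_ind id Function.injective_id (fun i _ => ⟨i, rfl⟩) hIndx }
  -- monomials
  have hxM : ∀ j, PMon P x (x j) := fun j => PMon.self (P := P) (x := x) j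
  have hC'M : ∀ s ∈ C', PMon P x s := by
    intro s hs
    obtain ⟨u, hu, hu0, hui, h1⟩ := hnf s hs
    have h2 : s = u * (∏ j, x j ^ (δ s j).toNat) * (∏ j, x j ^ (-δ s j).toNat)⁻¹ := by
      rw [← h1, mul_inv_cancel_right₀]
      exact Finset.prod_ne_zero_iff.2 fun j _ => pow_ne_zero _ (hx0 j)
    rw [h2]
    exact ((PMon.unit hu0 hu hui).mul hx0 (Pool.Agent.TH188.QS.PMon.prod hx0 _ fun j _ =>
      Pool.Agent.TH188.QS.PMon.pow hx0 (hxM j) _)).mul hx0 (Pool.Agent.TH188.QS.PMon.prod hx0 _ fun j _ => Pool.Agent.TH188.QS.PMon.pow hx0 (hxM j) _).inv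
  have hMM : PMon P x M := Pool.Agent.TH188.QS.PMon.prod hx0 _ fun j _ => Pool.Agent.TH188.QS.PMon.pow hx0 (hxM j) _
  have hgM : PMon P x g := hC'M g (Set.mem_insert _ _)
  have hRM : PMon P x R := (Pool.Agent.TH188.QS.PMon.pow hx0 hgM k).mul hx0 hMM
  have hβM : PMon P x β := hC'M β (Or.inr (Or.inl rfl))
  have hγM : PMon P x γ := hC'M γ (Or.inr (Or.inr (Or.inl rfl)))
  have hπM : PMon P x π := hC'M π (Or.inr (Or.inr (Or.inr rfl)))
  obtain ⟨hg₆A, hg₆0, T, hTf, hT, hA₆T⟩ := hFe₆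
  set g₆ := ((β * γ) ^ k₄ * g) ^ k₆ * R with hg₆
  have hg₆M : PMon P x g₆ :=
    (Pool.Agent.TH188.QS.PMon.pow hx0 ((Pool.Agent.TH188.QS.PMon.pow hx0 (hβM.mul hx0 hγM) _).mul hx0 hgM) _).mul hx0 hRM
  have hPT : PP V A T = P := by
    rw [hP, hA₆T]
  have hxd : ∀ j, ∃ l₀ : ℕ, ∀ l, l₀ ≤ l → g₆ ^ l * x j ∈ A := fun j =>
    exists_den hg₆A (fun t ht => (hT t ht).2) (by rw [← hA₆T]; exact hA₄₆ (hxA j))
  choose l₀ hl₀ using hxd
  refine ⟨T, s, x, xb, ⟨hTf, by rw [hPT]; exact hRP, g₆ ^ (Finset.univ.sup l₀ + 1),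
    A.pow_mem hg₆A _, by rw [hPT]; exact Pool.Agent.TH188.QS.PMon.pow hx0 hg₆M _, ?_, ?_⟩, ?_, ?_,
    by rw [hPT]; exact hπM, fun i => ⟨hxb0 i, hxr i⟩⟩
  · intro t ht
    have e1 : g₆ ^ (Finset.univ.sup l₀ + 1) * t = g₆ ^ (Finset.univ.sup l₀) * (t * g₆) := by ring
    rw [e1]
    exact A.mul_mem (A.pow_mem hg₆A _) (hT t ht).2
  · intro j
    exact hl₀ j _ ((Finset.le_sup (f := l₀) (Finset.mem_univ j)).trans (Nat.le_succ _))
  · intro i hi
    exact hxbU i ((hprV ((hxr i).inv (hxb0 i))).1 hi)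
  · intro δ hδ
    apply hindb δ
    have h1 : Pr (residue Q) (mo x δ) (mo xb δ) := Pr.mo hxr hxb0 δ
    have h2 : mo xb δ ≠ 0 := mo_ne_zero hxb0 _
    have h3 : mo x δ ≠ 0 := mo_ne_zero hx0 _
    have h4 : mo x δ ∈ V := (V.valuation_le_one_iff _).1 hδ.le
    have h5 : (mo x δ)⁻¹ ∈ V := by
      rw [← V.valuation_le_one_iff, map_inv₀, hδ, inv_one]
    have h6 := (U.valuation_le_one_iff _).2 ((hprV h1).1 h4)
    have h7 := (U.valuation_le_one_iff _).2 ((hprV (h1.inv h2)).1 h5)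
    rw [map_inv₀] at h7
    exact le_antisymm h6 ((inv_le_one₀ (zero_lt_iff.2 ((map_ne_zero _).2 h2))).1 h7)

end Pool.Agent.W5h94.SP
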